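import Pool.Agent.W221.NS.Stm

/-!
# MD-UNIT: `L⁴` bound at unit scale
-/

set_option autoImplicit false

namespace Pool.Agent.W395.MD

open MeasureTheory Set Metric
open scoped ContDiff
open H459R3.NS W221.NS

lemma nsq_nonneg (v : V → V) (x : V) : 0 ≤ nsq v x :=
  Finset.sum_nonneg fun _ _ => sq_nonneg _

lemma gsq_nonneg (v : V → V) (x : V) : 0 ≤ gsq v x :=
  Finset.sum_nonneg fun _ _ => Finset.sum_nonneg fun _ _ => sq_nonneg _

lemma nsq_cont {v : V → V} (hv : ContDiff ℝ ∞ v) : Continuous (nsq v) := by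
  unfold nsq
  have := hv.continuous
  fun_prop

lemma int_ball {f : V → ℝ} (hf : Continuous f) (a : V) (ρ : ℝ) : IntegrableOn f (ball a ρ) :=
  (hf.continuousOn.integrableOn_compact (isCompact_closedBall a ρ)).mono_set
    ball_subset_closedBall

lemma vol1 : (volume : Measure V).real (ball (0 : V) 1) = 8 := by
  rw [Measure.real, Real.volume_pi_ball _ one_pos, ENNReal.toReal_ofReal (by positivity)]
  norm_num

lemma pt {x l : ℝ} (hx : 0 ≤ x) (hl : 0 < l) : x ^ 2 ≤ l ^ 2 + x ^ 3 / l := by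
  rcases le_total x l with h | h
  · have h1 : x ^ 2 ≤ l ^ 2 := pow_le_pow_left₀ hx h 2
    have h2 : 0 ≤ x ^ 3 / l := by positivity
    linarith
  · have h1 : x ^ 2 ≤ x ^ 3 / l := by
      rw [le_div_iff₀ hl]
      have : 0 ≤ x ^ 2 := sq_nonneg x
      nlinarith
    have h2 : 0 ≤ l ^ 2 := sq_nonneg l
    linarith

lemma L4_le {v : V → V} (hv : ContDiff ℝ ∞ v) {l : ℝ} (hl : 0 < l) :
    L4 0 1 v ≤ 8 * l ^ 2 + L6 0 1 v / l := by
  have hc := nsq_cont hv
  have i2 : IntegrableOn (fun z => nsq v z ^ 2) (ball (0 : V) 1) := int_ball (hc.pow 2) 0 1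
  have i3 : IntegrableOn (fun z => nsq v z ^ 3) (ball (0 : V) 1) := int_ball (hc.pow 3) 0 1
  have i0 : IntegrableOn (fun _ : V => l ^ 2) (ball (0 : V) 1) := int_ball continuous_const 0 1
  have i4 : IntegrableOn (fun z => nsq v z ^ 3 / l) (ball (0 : V) 1) := i3.div_const l
  unfold L4 L6
  have h1 : ∫ z in ball (0 : V) 1, nsq v z ^ 2 ≤
      ∫ z in ball (0 : V) 1, (l ^ 2 + nsq v z ^ 3 / l) :=
    integral_mono i2 (i0.add i4) fun z => pt (nsq_nonneg v z) hl
  refine h1.trans (le_of_eq ?_)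
  rw [integral_add i0 i4, integral_div, integral_const, measureReal_restrict_apply_univ, vol1,
    smul_eq_mul]

theorem t_UNIT (hP : S_POINC) (hS : S_SOB) : S_UNIT := by
  obtain ⟨C₁, hC₁, h₁⟩ := hP
  obtain ⟨C₂, hC₂, h₂⟩ := hS
  set K : ℝ := C₂ * (1 + C₁) ^ 3 with hK
  have hK0 : 0 < K := by positivity
  refine ⟨√(8 + K), Real.sqrt_pos.2 (by positivity), ?_⟩
  intro v hv hm
  set B := B2 0 2 v with hB
  have hB0 : 0 ≤ B := setIntegral_nonneg measurableSet_ball fun z _ => gsq_nonneg v z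
  have hA0 : 0 ≤ A2 0 2 v := setIntegral_nonneg measurableSet_ball fun z _ => nsq_nonneg v z
  have hA := h₁ v hv hm
  have hL := h₂ v hv 0 1 one_pos
  rw [mul_one, one_pow, inv_one, one_mul] at hL
  have hL6 : L6 0 1 v ≤ K * B ^ 3 := by
    refine hL.trans ?_
    have h3 : (B2 0 2 v + A2 0 2 v) ^ 3 ≤ ((1 + C₁) * B) ^ 3 := by
      refine pow_le_pow_left₀ (add_nonneg hB0 hA0) ?_ 3
      linarith
    calc C₂ * (B2 0 2 v + A2 0 2 v) ^ 3 ≤ C₂ * ((1 + C₁) * B) ^ 3 :=
          mul_le_mul_of_nonneg_left h3 hC₂.le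
      _ = K * B ^ 3 := by rw [hK, mul_pow]; ring
  have hmain : L4 0 1 v ≤ (8 + K) * B ^ 2 := by
    rcases hB0.eq_or_lt with h0 | hpos
    · have h6 : L6 0 1 v ≤ 0 := by
        rw [← h0] at hL6
        simpa using hL6
      rw [← h0, zero_pow (by norm_num), mul_zero]
      by_contra hcon
      push Not at hcon
      set x := L4 0 1 v
      have hl : 0 < √(x / 16) := Real.sqrt_pos.2 (by positivity)
      have h7 := L4_le hv hl
      rw [Real.sq_sqrt (by positivity)] at h7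
      have h8 : L6 0 1 v / √(x / 16) ≤ 0 := div_nonpos_of_nonpos_of_nonneg h6 hl.le
      have h9 : x ≤ 8 * (x / 16) + L6 0 1 v / √(x / 16) := h7
      linarith
    · have h7 := L4_le hv hpos
      have h8 : L6 0 1 v / B ≤ K * B ^ 2 := by
        rw [div_le_iff₀ hpos]
        calc L6 0 1 v ≤ K * B ^ 3 := hL6
          _ = K * B ^ 2 * B := by ring
      linarith
  calc √(L4 0 1 v) ≤ √((8 + K) * B ^ 2) := Real.sqrt_le_sqrt hmain
    _ = √(8 + K) * B := by
        rw [Real.sqrt_mul (by positivity), Real.sqrt_sq hB0]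

end Pool.Agent.W395.MD
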